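import Pool.Agent.H927.MG.Goals

/-!
# A nonzero derivation of the complex numbers

Part `S_exists_D` of the project of helper927 (MP_2eb777_ag): the partial derivative with respect to an element of a
transcendence basis of `ℂ` over `ℚ` extends to `ℂ`, since `ℂ` is formally etale over the polynomial ring on a
transcendence basis (localization followed by a separable algebraic extension).
-/

set_option autoImplicit false

open TensorProduct
open scoped IntermediateField.algebraAdjoinAdjoin

namespace Pool.Agent.H216.MG927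

/-- derivations extend along formally etale extensions (existence, with one nonzero value) -/
theorem extend_derivation {R S T : Type} [CommRing R] [CommRing S] [CommRing T] [Algebra R S] [Algebra R T]
    [Algebra S T] [IsScalarTower R S T] [Algebra.FormallyEtale S T] (d : Derivation R S T) :
    ∃ D : Derivation R T T, ∀ s : S, D (algebraMap S T s) = d s := by
  let l : Ω[S⁄R] →ₗ[S] T := d.liftKaehlerDifferential
  let L : T ⊗[S] Ω[S⁄R] →ₗ[T] T := LinearMap.liftBaseChange T l
  let e := KaehlerDifferential.tensorKaehlerEquivOfFormallyEtale R S T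
  let f : Ω[T⁄R] →ₗ[T] T := L ∘ₗ e.symm.toLinearMap
  refine ⟨f.compDer (KaehlerDifferential.D R T), ?_⟩
  intro s
  have h1 : e.symm (KaehlerDifferential.D R T (algebraMap S T s)) = 1 ⊗ₜ KaehlerDifferential.D R S s :=
    KaehlerDifferential.tensorKaehlerEquivOfFormallyEtale_symm_D_algebraMap R S T s
  have h2 : (f.compDer (KaehlerDifferential.D R T)) (algebraMap S T s) =
      L (e.symm (KaehlerDifferential.D R T (algebraMap S T s))) := rfl
  rw [h2, h1]
  have h3 : L (1 ⊗ₜ KaehlerDifferential.D R S s) = (1 : T) • l (KaehlerDifferential.D R S s) :=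
    LinearMap.liftBaseChange_tmul T l 1 _
  rw [h3, one_smul]
  exact Derivation.liftKaehlerDifferential_comp_D d s

theorem exists_D : Pool.Agent.H927.MG.S_exists_D := by
  -- a transcendental number
  have htr : ∃ x : ℂ, Transcendental ℚ x := by
    by_contra hcon
    simp only [Transcendental, not_exists, not_not] at hcon
    have h1 : Algebra.IsAlgebraic ℚ ℂ := ⟨hcon⟩
    have h2 : Cardinal.mk ℂ ≤ Cardinal.aleph0 := by
      have := Algebra.IsAlgebraic.cardinalMk_le_max ℚ ℂ
      simpa using this
    rw [Cardinal.mk_complex] at h2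
    exact absurd h2 (not_le.2 Cardinal.aleph0_lt_continuum)
  obtain ⟨x, hx⟩ := htr
  have hs : AlgebraicIndepOn ℚ id ({x} : Set ℂ) := by
    rw [AlgebraicIndepOn]
    exact (algebraicIndependent_singleton_iff (⟨x, rfl⟩ : ({x} : Set ℂ))).2 hx
  obtain ⟨t, hxt, ht⟩ := exists_isTranscendenceBasis_superset hs
  -- the polynomial ring
  let ι := t
  let v : ι → ℂ := fun i => (i : ℂ)
  have hv : AlgebraicIndependent ℚ v := ht.1
  let K := IntermediateField.adjoin ℚ (Set.range v)
  have hK : Algebra.IsAlgebraic K ℂ := IsTranscendenceBasis.isAlgebraic_field ht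
  have hsep : Algebra.IsSeparable K ℂ := inferInstance
  have het1 : Algebra.FormallyEtale K ℂ := Algebra.FormallyEtale.of_isSeparable K ℂ
  let S := Algebra.adjoin ℚ (Set.range v)
  have het2 : Algebra.FormallyEtale S K := Algebra.FormallyEtale.of_isLocalization (nonZeroDivisors S)
  have het : Algebra.FormallyEtale S ℂ := Algebra.FormallyEtale.comp S K ℂ
  let e : MvPolynomial t ℚ ≃ₐ[ℚ] S := hv.aevalEquiv
  let i : t := ⟨x, hxt rfl⟩
  let H : S →ₗ[ℚ] ℂ := (Subalgebra.val S).toLinearMap ∘ₗ e.toLinearMap ∘ₗ
    (MvPolynomial.pderiv i : Derivation ℚ (MvPolynomial t ℚ) (MvPolynomial t ℚ)).toLinearMap ∘ₗ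
      e.symm.toLinearMap
  have hH : ∀ s, H s = ((e (MvPolynomial.pderiv i (e.symm s)) : S) : ℂ) := fun s => rfl
  let d : Derivation ℚ S ℂ := Derivation.mk' H (by
    intro a b
    rw [hH, hH, hH, map_mul, Derivation.leibniz, map_add]
    simp only [smul_eq_mul, map_mul, AlgEquiv.apply_symm_apply, Subalgebra.coe_add, Subalgebra.coe_mul,
      Subalgebra.smul_def])
  obtain ⟨D, hD⟩ := extend_derivation d
  have hX : ∃ s : S, d s = 1 := by
    refine ⟨e (MvPolynomial.X i), ?_⟩
    have : d (e (MvPolynomial.X i)) = H (e (MvPolynomial.X i)) := rfl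
    rw [this, hH, AlgEquiv.symm_apply_apply, MvPolynomial.pderiv_X_self, map_one, Subalgebra.coe_one]
  obtain ⟨s, hs1⟩ := hX
  refine ⟨D.restrictScalars ℤ, ?_⟩
  intro h0
  have h1 : D (algebraMap S ℂ s) = 0 := by
    have := congrArg (fun D' : Derivation ℤ ℂ ℂ => D' (algebraMap S ℂ s)) h0
    simpa using this
  rw [hD, hs1] at h1
  exact one_ne_zero h1

end Pool.Agent.H216.MG927
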